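import Pool.Agent.Y89.TS.Stm
import Pool.Agent.H204R3.GP.FFT

/-! # The first fundamental theorem for gl in mixed tensors -/

set_option autoImplicit false
set_option linter.unusedSectionVars false

namespace Pool.Agent.Y108.TS.GL

open Pool.Agent.H204R3.GP Pool.Agent.H204R3.SP Pool.Agent.Y89.TS

noncomputable section

variable {ι : Type} {κ : Type}

/-- the signs -/
def js : ι ⊕ ι → ℂ := Sum.elim (fun _ => 1) (fun _ => -1)

/-- the indices of the pattern `t` -/
def emb (t : κ → Bool) (J : κ → ι) : κ → ι ⊕ ι :=
  fun k => cond (t k) (Sum.inl (J k)) (Sum.inr (J k))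

/-- forget the type -/
def un (I : κ → ι ⊕ ι) : κ → ι := fun k => Sum.elim id id (I k)

theorem isLeft_emb (t : κ → Bool) (J : κ → ι) (k : κ) : (emb t J k).isLeft = t k := by
  unfold emb
  cases t k <;> rfl

theorem un_emb (t : κ → Bool) (J : κ → ι) : un (emb t J) = J := by
  funext k
  unfold un emb
  cases t k <;> rfl

theorem emb_un (t : κ → Bool) (I : κ → ι ⊕ ι) (h : ∀ k, (I k).isLeft = t k) :
    emb t (un I) = I := by
  funext k
  change cond (t k) (Sum.inl (Sum.elim id id (I k))) (Sum.inr (Sum.elim id id (I k))) = I k
  rw [← h k]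
  generalize I k = x
  cases x <;> rfl

open Classical in
/-- extension by zero -/
def ext (t : κ → Bool) (F : (κ → ι) → ℂ) : (κ → ι ⊕ ι) → ℂ :=
  fun I => if ∀ k, (I k).isLeft = t k then F (un I) else 0

theorem ext_emb (t : κ → Bool) (F : (κ → ι) → ℂ) (J : κ → ι) : ext t F (emb t J) = F J := by
  unfold ext
  rw [if_pos (isLeft_emb t J), un_emb]

/-- restriction to the pattern -/
def res (t : κ → Bool) : ((κ → ι ⊕ ι) → ℂ) →ₗ[ℂ] ((κ → ι) → ℂ) where
  toFun G := fun J => G (emb t J)
  map_add' _ _ := rfl
  map_smul' _ _ := rfl

variable [Fintype ι] [DecidableEq ι] [Fintype κ] [DecidableEq κ]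

theorem update_emb (t : κ → Bool) (J : κ → ι) (k : κ) (x : ι ⊕ ι) (hx : x.isLeft = t k) :
    Function.update (emb t J) k x = emb t (Function.update J k (Sum.elim id id x)) := by
  funext l
  by_cases h : l = k
  · subst h
    unfold emb
    rw [Function.update_self, Function.update_self, ← hx]
    cases x <;> rfl
  · unfold emb
    rw [Function.update_of_ne h, Function.update_of_ne h]

theorem key (t : κ → Bool) (F : (κ → ι) → ℂ)
    (hF : ∀ (p q : ι) (I : κ → ι),
      ∑ k, (cond (t k) (if I k = p then F (Function.update I k q) else 0)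
      (-(if I k = q then F (Function.update I k p) else 0))) = 0) (p q : ι) (I : κ → ι ⊕ ι) :
    ∑ k, (JJ Sum.swap js (Sum.inl p) (I k) * ext t F (Function.update I k (Sum.inr q)) +
      JJ Sum.swap js (Sum.inr q) (I k) * ext t F (Function.update I k (Sum.inl p))) = 0 := by
  by_cases hI : ∀ k, (I k).isLeft = t k
  · obtain ⟨J, rfl⟩ : ∃ J, I = emb t J := ⟨un I, (emb_un t I hI).symm⟩
    have h1 := hF q p J
    rw [← neg_eq_zero, ← Finset.sum_neg_distrib] at h1
    rw [← h1]
    refine Finset.sum_congr rfl fun k _ => ?_
    unfold JJ
    cases hk : t k with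
    | true =>
      have e1 : emb t J k = Sum.inl (J k) := by unfold emb; rw [hk]; rfl
      rw [e1, if_neg (by simp), zero_mul, zero_add, update_emb t J k (Sum.inl p) (by rw [hk]; rfl),
        ext_emb]
      by_cases h : J k = q
      · simp [h, js]
      · simp [h]
    | false =>
      have e1 : emb t J k = Sum.inr (J k) := by unfold emb; rw [hk]; rfl
      rw [e1, update_emb t J k (Sum.inr q) (by rw [hk]; rfl), ext_emb]
      by_cases h : J k = p
      · simp [h, js]
      · simp [h]
  · refine Finset.sum_eq_zero fun k _ => ?_
    have h1 : ∀ x : ι ⊕ ι, x.isLeft = (I k).isLeft → ext t F (Function.update I k x) = 0 := by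
      intro x hx
      unfold ext
      rw [if_neg]
      intro h2
      apply hI
      intro l
      have h3 := h2 l
      by_cases h : l = k
      · subst h
        rw [Function.update_self, hx] at h3
        exact h3
      · rwa [Function.update_of_ne h] at h3
    unfold JJ
    cases hk : I k with
    | inl a =>
      rw [if_neg (by simp), zero_mul, zero_add, h1 (Sum.inl p) (by rw [hk]; rfl), mul_zero]
    | inr a =>
      rw [h1 (Sum.inr q) (by rw [hk]; rfl), mul_zero, zero_add, if_neg (by simp), zero_mul]

theorem ext_mem (t : κ → Bool) (F : (κ → ι) → ℂ)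
    (hF : ∀ (p q : ι) (I : κ → ι),
      ∑ k, (cond (t k) (if I k = p then F (Function.update I k q) else 0)
      (-(if I k = q then F (Function.update I k p) else 0))) = 0) :
    ext t F ∈ InvG (Sum.isLeft : ι ⊕ ι → Bool) Sum.swap js κ t := by
  refine ⟨fun b c hbc I => ?_, fun I hI k => ?_⟩
  · cases b with
    | inl p =>
      cases c with
      | inl q => simp at hbc
      | inr q => exact key t F hF p q I
    | inr p =>
      cases c with
      | inl q =>
        rw [← key t F hF q p I]
        exact Finset.sum_congr rfl fun k _ => add_comm _ _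
      | inr q => simp at hbc
  · unfold ext at hI
    by_contra h
    apply hI
    rw [if_neg]
    intro h2
    exact h (h2 k)

theorem res_mat (t : κ → Bool) {m : ℕ} (e : Fin m × Fin 2 ≃ κ) (c : Fin m → Bool) :
    res t (matG (Sum.isLeft : ι ⊕ ι → Bool) Sum.swap js e c) ∈
      Submodule.span ℂ (Set.range (mtch (ι := ι) t)) := by
  classical
  by_cases hgood : ∀ s, t (e (s, 0)) = c s ∧ t (e (s, 0)) ≠ t (e (s, 1))
  · -- the partner map
    set π : κ → κ := fun k => e ((e.symm k).1, Equiv.swap 0 1 (e.symm k).2) with hπ
    have hππ : ∀ k, π (π k) = k := by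
      intro k
      rw [hπ]
      simp
    have hπt : ∀ k, t (π k) = !t k := by
      intro k
      obtain ⟨⟨s, i⟩, rfl⟩ := e.surjective k
      rw [hπ]
      simp only [Equiv.symm_apply_apply]
      have h1 := (hgood s).2
      have hi : i = 0 ∨ i = 1 := by fin_cases i <;> simp
      rcases hi with rfl | rfl
      · rw [Equiv.swap_apply_left]
        revert h1
        cases t (e (s, 0)) <;> cases t (e (s, 1)) <;> simp
      · rw [Equiv.swap_apply_right]
        revert h1
        cases t (e (s, 0)) <;> cases t (e (s, 1)) <;> simp
    let β : {k // t k = true} ≃ {k // t k = false} :=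
      { toFun := fun k => ⟨π k.1, by rw [hπt, k.2]; rfl⟩
        invFun := fun k => ⟨π k.1, by rw [hπt, k.2]; rfl⟩
        left_inv := fun k => Subtype.ext (hππ _)
        right_inv := fun k => Subtype.ext (hππ _) }
    have hres : res t (matG (Sum.isLeft : ι ⊕ ι → Bool) Sum.swap js e c) =
        (∏ s, (cond (c s) 1 (-1) : ℂ)) • mtch (ι := ι) t β := by
      funext J
      change matG (Sum.isLeft : ι ⊕ ι → Bool) Sum.swap js e c (emb t J) =
        (∏ s, (cond (c s) 1 (-1) : ℂ)) * mtch (ι := ι) t β J
      have h1 : mtch (ι := ι) t β J = ∏ s : Fin m, if J (e (s, 0)) = J (e (s, 1)) then 1 else 0 := by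
        unfold mtch
        symm
        let g : Fin m → {k // t k = true} := fun s =>
          if h : t (e (s, 0)) = true then ⟨e (s, 0), h⟩ else ⟨e (s, 1), by
            have h1 := (hgood s).2
            revert h1 h
            cases t (e (s, 0)) <;> cases t (e (s, 1)) <;> simp⟩
        refine Fintype.prod_bijective g ?_ _ _ ?_
        · constructor
          · intro s s' hs
            have h2 : ∀ s, (e.symm (g s).1).1 = s := by
              intro s
              simp only [g]
              split_ifs <;> simp
            rw [← h2 s, ← h2 s', hs]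
          · rintro ⟨k, hk⟩
            obtain ⟨⟨s, i⟩, rfl⟩ := e.surjective k
            refine ⟨s, ?_⟩
            have hi : i = 0 ∨ i = 1 := by fin_cases i <;> simp
            rcases hi with rfl | rfl
            · simp only [g]
              rw [dif_pos hk]
            · simp only [g]
              rw [dif_neg]
              intro h
              exact (hgood s).2 (h.trans hk.symm)
        · intro s
          have h3 : ∀ k, (β k).1 = π k.1 := fun k => rfl
          rw [h3]
          have p0 : π (e (s, 0)) = e (s, 1) := by rw [hπ]; simp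
          have p1 : π (e (s, 1)) = e (s, 0) := by rw [hπ]; simp
          by_cases h : t (e (s, 0)) = true
          · have hg : (g s).1 = e (s, 0) := by simp only [g]; rw [dif_pos h]
            rw [hg, p0]
          · have hg : (g s).1 = e (s, 1) := by simp only [g]; rw [dif_neg h]
            rw [hg, p1]
            by_cases h' : J (e (s, 0)) = J (e (s, 1))
            · rw [if_pos h', if_pos h'.symm]
            · rw [if_neg h', if_neg (fun h'' => h' h''.symm)]
      rw [h1]
      unfold matG
      rw [← Finset.prod_mul_distrib]
      refine Finset.prod_congr rfl fun s _ => ?_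
      obtain ⟨h2, h3⟩ := hgood s
      rw [isLeft_emb, if_pos h2, ← h2]
      unfold JJ emb js
      revert h3
      cases t (e (s, 0)) <;> cases t (e (s, 1)) <;> simp [eq_comm]
    rw [hres]
    exact Submodule.smul_mem _ _ (Submodule.subset_span ⟨β, rfl⟩)
  · push Not at hgood
    obtain ⟨s, hs⟩ := hgood
    have hres : res t (matG (Sum.isLeft : ι ⊕ ι → Bool) Sum.swap js e c) = 0 := by
      funext J
      change matG (Sum.isLeft : ι ⊕ ι → Bool) Sum.swap js e c (emb t J) = 0
      unfold matG
      refine Finset.prod_eq_zero (Finset.mem_univ s) ?_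
      rw [isLeft_emb]
      by_cases h : t (e (s, 0)) = c s
      · rw [if_pos h]
        have h2 := hs h
        unfold JJ emb
        revert h2
        cases t (e (s, 0)) <;> cases t (e (s, 1)) <;> simp
      · rw [if_neg h]
    rw [hres]
    exact Submodule.zero_mem _

theorem t_gl : S_gl := by
  intro ι _ _ κ _ _ t F hF
  rcases Nat.even_or_odd' (Fintype.card κ) with ⟨m, hm | hm⟩
  · have h1 := fftG (R := ι ⊕ ι) (Ω := ℂ) (cls := (Sum.isLeft : ι ⊕ ι → Bool)) (inv := Sum.swap)
      (jj := js) (fun x => Sum.swap_swap x) (by rintro (x | x) <;> simp [js])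
      (by rintro (x | x) <;> simp [js])
      (by
        rintro (x | x) (y | y) h
        · rfl
        · simp at h
        · simp at h
        · rfl) m κ hm t (ext_mem t F hF)
    have h2 : F = res t (ext t F) := by
      funext J
      exact (ext_emb t F J).symm
    rw [h2]
    have h3 : (MatG (Sum.isLeft : ι ⊕ ι → Bool) Sum.swap js κ m).map (res t) ≤
        Submodule.span ℂ (Set.range (mtch (ι := ι) t)) := by
      unfold MatG
      rw [Submodule.map_span_le]
      rintro _ ⟨e, c, rfl⟩
      exact res_mat t e c
    exact h3 (Submodule.mem_map_of_mem h1)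
  · have h0 : F = 0 := by
      funext I
      have h1 : ∑ p : ι, ∑ k, (cond (t k) (if I k = p then F (Function.update I k p) else 0)
          (-(if I k = p then F (Function.update I k p) else 0))) = 0 :=
        Finset.sum_eq_zero fun p _ => hF p p I
      rw [Finset.sum_comm] at h1
      have h2 : ∀ k, ∑ p : ι, (cond (t k) (if I k = p then F (Function.update I k p) else 0)
          (-(if I k = p then F (Function.update I k p) else 0))) = (cond (t k) 1 (-1)) * F I := by
        intro k
        have h3 : ∀ p, (if I k = p then F (Function.update I k p) else 0) =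
            if I k = p then F I else 0 := by
          intro p
          by_cases h : I k = p
          · rw [if_pos h, if_pos h, ← h, Function.update_eq_self]
          · rw [if_neg h, if_neg h]
        simp only [h3]
        cases t k <;> simp
      rw [Finset.sum_congr rfl fun k _ => h2 k, ← Finset.sum_mul] at h1
      rcases mul_eq_zero.1 h1 with h3 | h3
      · exfalso
        have h4 : (∑ k : κ, (cond (t k) 1 (-1) : ℤ)) = 0 := by
          have h5 : ((∑ k : κ, (cond (t k) 1 (-1) : ℤ) : ℤ) : ℂ) = ∑ k : κ, cond (t k) 1 (-1) := by
            rw [Int.cast_sum]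
            refine Finset.sum_congr rfl fun k _ => ?_
            cases t k <;> simp
          rw [h3] at h5
          exact_mod_cast h5
        have h6 : (∑ k : κ, (cond (t k) 1 (-1) : ℤ)) % 2 = (∑ k : κ, (1 : ℤ)) % 2 := by
          rw [Finset.sum_int_mod, Finset.sum_int_mod (s := Finset.univ) (n := 2) (f := fun _ => (1:ℤ))]
          congr 1
          refine Finset.sum_congr rfl fun k _ => ?_
          cases t k <;> rfl
        rw [h4] at h6
        simp only [Finset.sum_const, Finset.card_univ, hm, nsmul_eq_mul, mul_one] at h6
        push_cast at h6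
        omega
      · exact h3
    rw [h0]
    exact Submodule.zero_mem _

end

end Pool.Agent.Y108.TS.GL
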